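import Pool.Agent.Q253.HV.Stm

/-! Project HV: job OS, orthogonality sums of the logarithmic derivatives. -/

set_option autoImplicit false

namespace Pool.Agent.Q68.HV

open Complex Filter Topology ArithmeticFunction Pool.Agent.Q253.HV

/-- `1 / (k+1) ^ σ` -/
lemma zsum {σ : ℝ} (hσ : 1 < σ) : Summable (fun k : ℕ => ((k : ℝ) + 1) ^ (-σ)) ∧
    ∑' k : ℕ, ((k : ℝ) + 1) ^ (-σ) ≤ 1 + 1 / (σ - 1) := by
  have h1 := ZetaAsymptotics.zeta_limit_aux1 hσ
  have h2 : 0 ≤ ZetaAsymptotics.termTSum σ := by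
    unfold ZetaAsymptotics.termTSum
    exact tsum_nonneg fun n => ZetaAsymptotics.term_nonneg _ _
  have hs : Summable (fun n : ℕ => (n : ℝ) ^ (-σ)) := by
    simpa [Real.rpow_neg] using (Real.summable_nat_rpow (p := -σ)).mpr (by linarith)
  have hs1 : Summable (fun k : ℕ => ((k : ℝ) + 1) ^ (-σ)) := by
    have := (summable_nat_add_iff 1).2 hs
    refine this.congr fun k => ?_
    push_cast
    rfl
  refine ⟨hs1, ?_⟩
  have h4 : ∑' k : ℕ, ((k : ℝ) + 1) ^ (-σ) = ∑' (n : ℕ), 1 / ((n : ℝ) + 1) ^ σ := by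
    apply tsum_congr
    intro n
    rw [Real.rpow_neg (by positivity), one_div]
  rw [h4]
  nlinarith

/-- the term -/
noncomputable def tk (j : ℕ) (s : ℝ) (k : ℕ) : ℝ :=
  (1 + Real.log ((k : ℝ) + 1)) ^ j * ((k : ℝ) + 1) ^ (-s)

lemma tk_nonneg (j : ℕ) (s : ℝ) (k : ℕ) : 0 ≤ tk j s k := by
  unfold tk
  have : 0 ≤ Real.log ((k : ℝ) + 1) := Real.log_nonneg (by linarith [Nat.cast_nonneg (α := ℝ) k])
  positivity

lemma tk_le {j : ℕ} (hj : 1 ≤ j) {s : ℝ} (hs : 1 < s) (hs2 : s ≤ 2) (k : ℕ) :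
    tk j s k ≤ (4 * j / (s - 1)) ^ j * ((k : ℝ) + 1) ^ (-((s + 1) / 2)) := by
  have hj0 : (1 : ℝ) ≤ j := by exact_mod_cast hj
  have hx : (1 : ℝ) ≤ (k : ℝ) + 1 := by linarith [Nat.cast_nonneg (α := ℝ) k]
  obtain ⟨x, hxd⟩ : ∃ x : ℝ, x = (k : ℝ) + 1 := ⟨_, rfl⟩
  unfold tk
  rw [← hxd] at hx ⊢
  have hx0 : 0 < x := by linarith
  obtain ⟨η, hη⟩ : ∃ η : ℝ, η = (s - 1) / (2 * j) := ⟨_, rfl⟩
  have hη0 : 0 < η := by rw [hη]; have : 0 < s - 1 := by linarith
                         positivity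
  have hη1 : η ≤ 1 := by
    rw [hη, div_le_one (by positivity)]
    linarith
  have h1 := Real.log_le_rpow_div hx0.le hη0
  have h2 : 1 ≤ x ^ η := Real.one_le_rpow hx hη0.le
  have h3 : 1 + Real.log x ≤ 2 / η * x ^ η := by
    have : 1 ≤ x ^ η / η := by
      rw [le_div_iff₀ hη0]
      linarith
    calc 1 + Real.log x ≤ x ^ η / η + x ^ η / η := add_le_add this h1
      _ = 2 / η * x ^ η := by ring
  have h4 : 0 ≤ 1 + Real.log x := by
    have := Real.log_nonneg hx
    linarith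
  have h5 : (1 + Real.log x) ^ j ≤ (2 / η) ^ j * x ^ ((s - 1) / 2) := by
    calc (1 + Real.log x) ^ j ≤ (2 / η * x ^ η) ^ j := pow_le_pow_left₀ h4 h3 j
      _ = (2 / η) ^ j * (x ^ η) ^ j := mul_pow _ _ _
      _ = (2 / η) ^ j * x ^ ((s - 1) / 2) := by
        rw [← Real.rpow_mul_natCast hx0.le]
        congr 2
        rw [hη]
        field_simp
  have h6 : 2 / η = 4 * j / (s - 1) := by
    rw [hη]
    have : s - 1 ≠ 0 := by linarith
    field_simp
    ring
  calc (1 + Real.log x) ^ j * x ^ (-s) ≤ (2 / η) ^ j * x ^ ((s - 1) / 2) * x ^ (-s) :=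
        mul_le_mul_of_nonneg_right h5 (by positivity)
    _ = (4 * j / (s - 1)) ^ j * x ^ (-((s + 1) / 2)) := by
        rw [h6, mul_assoc, ← Real.rpow_add hx0]
        congr 2
        ring

lemma tk_sum {j : ℕ} (hj : 1 ≤ j) {s : ℝ} (hs : 1 < s) (hs2 : s ≤ 2) :
    Summable (tk j s) ∧ ∑' k, tk j s k ≤ 3 * (4 * j) ^ j / (s - 1) ^ (j + 1) := by
  obtain ⟨h1, h2⟩ := zsum (σ := (s + 1) / 2) (by linarith)
  have h3 := h1.mul_left ((4 * (j : ℝ) / (s - 1)) ^ j)
  have hsum : Summable (tk j s) :=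
    Summable.of_nonneg_of_le (tk_nonneg j s) (tk_le hj hs hs2) h3
  refine ⟨hsum, ?_⟩
  have h0 : 0 < s - 1 := by linarith
  calc ∑' k, tk j s k ≤ ∑' k : ℕ, (4 * (j : ℝ) / (s - 1)) ^ j * ((k : ℝ) + 1) ^ (-((s + 1) / 2)) :=
        hsum.tsum_le_tsum (tk_le hj hs hs2) h3
    _ = (4 * (j : ℝ) / (s - 1)) ^ j * ∑' k : ℕ, ((k : ℝ) + 1) ^ (-((s + 1) / 2)) := tsum_mul_left
    _ ≤ (4 * (j : ℝ) / (s - 1)) ^ j * (3 / (s - 1)) := by
        refine mul_le_mul_of_nonneg_left (h2.trans ?_) (by positivity)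
        rw [show (s + 1) / 2 - 1 = (s - 1) / 2 by ring, one_div_div, ← sub_nonneg]
        have : 3 / (s - 1) - (1 + 2 / (s - 1)) = (2 - s) / (s - 1) := by
          field_simp
          ring
        rw [this]
        exact div_nonneg (by linarith) h0.le
    _ = 3 * (4 * j) ^ j / (s - 1) ^ (j + 1) := by
        rw [div_pow, pow_succ]
        field_simp

variable {q : ℕ} [NeZero q]

/-- a twisted coefficient -/
noncomputable def tw (a : ℕ → ℝ) (χ : DirichletCharacter ℂ q) (n : ℕ) : ℂ := χ n * (a n : ℂ)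

lemma norm_term {a : ℕ → ℝ} (ha0 : ∀ n, 0 ≤ a n) {s : ℝ} (n : ℕ) :
    ‖LSeries.term (fun n => (a n : ℂ)) (s : ℂ) n‖ = if n = 0 then 0 else a n * (n : ℝ) ^ (-s) := by
  rcases eq_or_ne n 0 with rfl | hn
  · simp
  · rw [LSeries.term_of_ne_zero hn, if_neg hn, norm_div, Complex.norm_real, Real.norm_eq_abs,
      abs_of_nonneg (ha0 n), Complex.norm_natCast_cpow_of_pos (Nat.pos_of_ne_zero hn),
      Complex.ofReal_re, Real.rpow_neg (by positivity), div_eq_mul_inv]

lemma term_le {a : ℕ → ℝ} {j : ℕ} (ha0 : ∀ n, 0 ≤ a n)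
    (ha : ∀ n : ℕ, a n ≤ Real.log n ^ j) {s : ℝ} (k : ℕ) :
    ‖LSeries.term (fun n => (a n : ℂ)) (s : ℂ) (k + 1)‖ ≤ tk j s k := by
  rw [norm_term ha0, if_neg (Nat.succ_ne_zero k)]
  unfold tk
  push_cast
  refine mul_le_mul_of_nonneg_right ((ha _).trans ?_) (by positivity)
  push_cast
  have h0 : 0 ≤ Real.log ((k : ℝ) + 1) := Real.log_nonneg (by linarith [Nat.cast_nonneg (α := ℝ) k])
  exact pow_le_pow_left₀ h0 (by linarith) j

lemma summ_a {a : ℕ → ℝ} {j : ℕ} (hj : 1 ≤ j) (ha0 : ∀ n, 0 ≤ a n)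
    (ha : ∀ n : ℕ, a n ≤ Real.log n ^ j) {s : ℝ} (hs : 1 < s) (hs2 : s ≤ 2) :
    LSeriesSummable (fun n => (a n : ℂ)) (s : ℂ) ∧
      ∑' n, ‖LSeries.term (fun n => (a n : ℂ)) (s : ℂ) n‖ ≤ ∑' k, tk j s k := by
  have h1 := (tk_sum hj hs hs2).1
  have h2 : Summable (fun k : ℕ => ‖LSeries.term (fun n => (a n : ℂ)) (s : ℂ) (k + 1)‖) :=
    Summable.of_nonneg_of_le (fun _ => norm_nonneg _) (term_le ha0 ha) h1
  have h3 : Summable (fun n : ℕ => ‖LSeries.term (fun n => (a n : ℂ)) (s : ℂ) n‖) :=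
    (summable_nat_add_iff 1).1 h2
  refine ⟨h3.of_norm, ?_⟩
  rw [h3.tsum_eq_zero_add, LSeries.term_zero, norm_zero, zero_add]
  exact h2.tsum_le_tsum (term_le ha0 ha) h1

lemma term_tw (a : ℕ → ℝ) (χ : DirichletCharacter ℂ q) (s : ℂ) (n : ℕ) :
    LSeries.term (tw a χ) s n = χ n * LSeries.term (fun n => (a n : ℂ)) s n := by
  rcases eq_or_ne n 0 with rfl | hn
  · simp
  · rw [LSeries.term_of_ne_zero hn, LSeries.term_of_ne_zero hn]
    unfold tw
    rw [mul_div_assoc]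

lemma norm_tw_le (a : ℕ → ℝ) (χ : DirichletCharacter ℂ q) (s : ℂ) (n : ℕ) :
    ‖LSeries.term (tw a χ) s n‖ ≤ ‖LSeries.term (fun n => (a n : ℂ)) s n‖ := by
  rw [term_tw, norm_mul]
  exact mul_le_of_le_one_left (norm_nonneg _) (χ.norm_le_one _)

/-- the general bound -/
theorem gen {j : ℕ} (hj : 1 ≤ j) {a : ℕ → ℝ} (ha0 : ∀ n, 0 ≤ a n)
    (ha : ∀ n : ℕ, a n ≤ Real.log n ^ j) (hq : 2 ≤ q) {s : ℝ} (hs : 1 < s) (hs2 : s ≤ 2) :
    ‖∑ χ ∈ (Finset.univ : Finset (DirichletCharacter ℂ q)).erase 1, LSeries (tw a χ) (s : ℂ)‖ ≤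
      2 * (1 + Real.log q) ^ j * ∑' k, tk j s k := by
  obtain ⟨hA, hA2⟩ := summ_a hj ha0 ha hs hs2
  obtain ⟨hT, -⟩ := tk_sum hj hs hs2
  have hAn : Summable (fun n : ℕ => ‖LSeries.term (fun n => (a n : ℂ)) (s : ℂ) n‖) := hA.norm
  have hχ : ∀ χ : DirichletCharacter ℂ q, Summable (fun n => LSeries.term (tw a χ) (s : ℂ) n) :=
    fun χ => Summable.of_norm_bounded hAn (norm_tw_le a χ _)
  have hq0 : (0 : ℝ) < q := by exact_mod_cast (by omega : 0 < q)
  have hq1 : (1 : ℝ) ≤ q := by exact_mod_cast (by omega : 1 ≤ q)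
  have hlq : 0 ≤ Real.log q := Real.log_nonneg hq1
  have hT0 : 0 ≤ ∑' k, tk j s k := tsum_nonneg (tk_nonneg j s)
  -- the principal character
  have hP : ‖LSeries (tw a (1 : DirichletCharacter ℂ q)) (s : ℂ)‖ ≤ ∑' k, tk j s k := by
    refine le_trans ?_ hA2
    refine tsum_of_norm_bounded hAn.hasSum (norm_tw_le a _ _)
  -- the full sum
  have hF : ‖∑ χ : DirichletCharacter ℂ q, LSeries (tw a χ) (s : ℂ)‖ ≤
      (1 + Real.log q) ^ j * ∑' k, tk j s k := by
    have e1 : ∑ χ : DirichletCharacter ℂ q, LSeries (tw a χ) (s : ℂ) =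
        ∑' n, ∑ χ : DirichletCharacter ℂ q, LSeries.term (tw a χ) (s : ℂ) n :=
      (Summable.tsum_finsetSum fun χ _ => hχ χ).symm
    have e2 : ∀ n : ℕ, ∑ χ : DirichletCharacter ℂ q, LSeries.term (tw a χ) (s : ℂ) n =
        (if (n : ZMod q) = 1 then (q.totient : ℂ) else 0) *
          LSeries.term (fun n => (a n : ℂ)) (s : ℂ) n := by
      intro n
      simp only [term_tw]
      rw [← Finset.sum_mul, DirichletCharacter.sum_characters_eq]
    obtain ⟨g, hg⟩ : ∃ g : ℕ → ℂ, g = fun n : ℕ =>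
          (if (n : ZMod q) = 1 then (q.totient : ℂ) else 0) *
          LSeries.term (fun n => (a n : ℂ)) (s : ℂ) n := ⟨_, rfl⟩
    have e3 : ∑ χ : DirichletCharacter ℂ q, LSeries (tw a χ) (s : ℂ) = ∑' n, g n := by
      rw [e1, hg]
      exact tsum_congr e2
    obtain ⟨i, hi⟩ : ∃ i : ℕ → ℕ, i = fun k => q * (k + 1) + 1 := ⟨_, rfl⟩
    have hinj : Function.Injective i := by
      intro k l h
      rw [hi] at h
      simp only at h
      have : q * (k + 1) = q * (l + 1) := by omega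
      have := Nat.eq_of_mul_eq_mul_left (by omega : 0 < q) this
      omega
    have hsupp : Function.support g ⊆ Set.range i := by
      intro n hn
      rw [Function.mem_support, hg] at hn
      simp only at hn
      have h1 : (n : ZMod q) = 1 := by
        by_contra h
        rw [if_neg h, zero_mul] at hn
        exact hn rfl
      have h2 : n ≠ 0 := by
        rintro rfl
        rw [LSeries.term_zero, mul_zero] at hn
        exact hn rfl
      have h3 : n ≠ 1 := by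
        rintro rfl
        apply hn
        have h4 : a 1 = 0 := le_antisymm (by
          have := ha 1
          rw [Nat.cast_one, Real.log_one, zero_pow (by omega)] at this
          exact this) (ha0 1)
        rw [LSeries.term_of_ne_zero one_ne_zero, h4]
        simp
      have h5 : ((n : ℕ) : ZMod q) = ((1 : ℕ) : ZMod q) := by rw [h1, Nat.cast_one]
      rw [ZMod.natCast_eq_natCast_iff] at h5
      have h6 : q ∣ n - 1 := (Nat.modEq_iff_dvd' (by omega)).1 h5.symm
      obtain ⟨m, hm⟩ := h6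
      have hm0 : m ≠ 0 := by
        rintro rfl
        omega
      refine ⟨m - 1, ?_⟩
      rw [hi]
      simp only
      rw [Nat.sub_add_cancel (by omega)]
      omega
    rw [e3, ← hinj.tsum_eq hsupp, ← tsum_mul_left]
    refine tsum_of_norm_bounded (hT.mul_left _).hasSum fun k => ?_
    have hik : i k ≠ 0 := by rw [hi]; exact Nat.succ_ne_zero _
    have h1 : ‖(if ((i k : ℕ) : ZMod q) = 1 then (q.totient : ℂ) else 0)‖ ≤ q := by
      split_ifs
      · rw [Complex.norm_natCast]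
        exact_mod_cast Nat.totient_le q
      · rw [norm_zero]
        exact hq0.le
    have hc : ((i k : ℕ) : ℝ) = q * ((k : ℝ) + 1) + 1 := by rw [hi]; push_cast; ring
    have hk0 : (0 : ℝ) ≤ k := Nat.cast_nonneg k
    have hlk : 0 ≤ Real.log ((k : ℝ) + 1) := Real.log_nonneg (by linarith)
    have h2 : ‖LSeries.term (fun n => (a n : ℂ)) (s : ℂ) (i k)‖ ≤
        ((1 + Real.log q) * (1 + Real.log ((k : ℝ) + 1))) ^ j * ((q : ℝ) * ((k : ℝ) + 1)) ^ (-s) := by
      rw [norm_term ha0, if_neg hik]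
      have h3 : a (i k) ≤ ((1 + Real.log q) * (1 + Real.log ((k : ℝ) + 1))) ^ j := by
        refine (ha _).trans (pow_le_pow_left₀ (Real.log_natCast_nonneg _) ?_ j)
        rw [hc]
        have h4 : (q : ℝ) * ((k : ℝ) + 1) + 1 ≤ q * (((k : ℝ) + 1) * 2) := by nlinarith
        have h5 : Real.log ((q : ℝ) * ((k : ℝ) + 1) + 1) ≤
            Real.log q + (Real.log ((k : ℝ) + 1) + Real.log 2) := by
          rw [← Real.log_mul (by positivity) (by norm_num), ← Real.log_mul (by positivity)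
            (by positivity)]
          exact Real.log_le_log (by positivity) h4
        have h6 : Real.log 2 ≤ 1 := by
          have := Real.log_two_lt_d9
          linarith
        nlinarith [mul_nonneg hlq hlk]
      have h7 : ((i k : ℕ) : ℝ) ^ (-s) ≤ ((q : ℝ) * ((k : ℝ) + 1)) ^ (-s) := by
        apply Real.rpow_le_rpow_of_nonpos (by positivity) (by rw [hc]; linarith) (by linarith)
      exact mul_le_mul h3 h7 (by positivity) (by positivity)
    rw [hg]
    simp only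
    rw [norm_mul]
    calc ‖(if ((i k : ℕ) : ZMod q) = 1 then (q.totient : ℂ) else 0)‖ *
          ‖LSeries.term (fun n => (a n : ℂ)) (s : ℂ) (i k)‖
        ≤ q * (((1 + Real.log q) * (1 + Real.log ((k : ℝ) + 1))) ^ j *
            ((q : ℝ) * ((k : ℝ) + 1)) ^ (-s)) := mul_le_mul h1 h2 (norm_nonneg _) hq0.le
      _ = (q * (q : ℝ) ^ (-s)) * ((1 + Real.log q) ^ j * tk j s k) := by
          unfold tk
          rw [mul_pow, Real.mul_rpow hq0.le (by positivity)]
          ring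
      _ ≤ 1 * ((1 + Real.log q) ^ j * tk j s k) := by
          refine mul_le_mul_of_nonneg_right ?_ (mul_nonneg (by positivity) (tk_nonneg j s k))
          calc (q : ℝ) * (q : ℝ) ^ (-s) = (q : ℝ) ^ (1 + -s) := by
                rw [Real.rpow_add hq0, Real.rpow_one]
            _ ≤ 1 := Real.rpow_le_one_of_one_le_of_nonpos hq1 (by linarith)
      _ = (1 + Real.log q) ^ j * tk j s k := one_mul _
  have hsplit : ∑ χ ∈ (Finset.univ : Finset (DirichletCharacter ℂ q)).erase 1,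
      LSeries (tw a χ) (s : ℂ) = ∑ χ : DirichletCharacter ℂ q, LSeries (tw a χ) (s : ℂ) -
        LSeries (tw a (1 : DirichletCharacter ℂ q)) (s : ℂ) := by
    rw [← Finset.sum_erase_add Finset.univ _ (Finset.mem_univ (1 : DirichletCharacter ℂ q))]
    ring
  rw [hsplit]
  have h1 : (1 : ℝ) ≤ (1 + Real.log q) ^ j := one_le_pow₀ (by linarith)
  calc ‖∑ χ : DirichletCharacter ℂ q, LSeries (tw a χ) (s : ℂ) -
        LSeries (tw a (1 : DirichletCharacter ℂ q)) (s : ℂ)‖
      ≤ (1 + Real.log q) ^ j * ∑' k, tk j s k + 1 * ∑' k, tk j s k := by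
        rw [one_mul]
        exact (norm_sub_le _ _).trans (add_le_add hF hP)
    _ ≤ (1 + Real.log q) ^ j * ∑' k, tk j s k + (1 + Real.log q) ^ j * ∑' k, tk j s k :=
        add_le_add le_rfl (mul_le_mul_of_nonneg_right h1 hT0)
    _ = _ := by ring

/-- the convolution `Λ * Λ` -/
noncomputable def LL (n : ℕ) : ℝ := ∑ p ∈ n.divisorsAntidiagonal, Λ p.1 * Λ p.2

lemma LL_nonneg (n : ℕ) : 0 ≤ LL n :=
  Finset.sum_nonneg fun p _ => mul_nonneg vonMangoldt_nonneg vonMangoldt_nonneg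

lemma LL_le (n : ℕ) : LL n ≤ Real.log n ^ 2 := by
  unfold LL
  have h1 : ∑ p ∈ n.divisorsAntidiagonal, Λ p.1 * Λ p.2 ≤
      ∑ p ∈ n.divisorsAntidiagonal, Λ p.1 * Real.log n := by
    refine Finset.sum_le_sum fun p hp => mul_le_mul_of_nonneg_left ?_ vonMangoldt_nonneg
    rw [Nat.mem_divisorsAntidiagonal] at hp
    refine vonMangoldt_le_log.trans (Real.log_le_log ?_ ?_)
    · have : p.2 ≠ 0 := by
        rintro h
        apply hp.2
        rw [← hp.1, h, mul_zero]
      exact_mod_cast Nat.pos_of_ne_zero this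
    · exact_mod_cast Nat.le_of_dvd (Nat.pos_of_ne_zero hp.2) ⟨p.1, by rw [← hp.1, mul_comm]⟩
  refine h1.trans (le_of_eq ?_)
  rw [← Finset.sum_mul, Nat.sum_divisorsAntidiagonal (f := fun i _ => Λ i), vonMangoldt_sum, sq]

theorem t_OS : S_OS := by
  refine ⟨384, by norm_num, ?_⟩
  intro q _ hq s hs hs2
  have hsc : 1 < ((s : ℂ)).re := by simpa using hs
  have h0 : 0 < s - 1 := by linarith
  have hq1 : (1 : ℝ) ≤ q := by exact_mod_cast (by omega : 1 ≤ q)
  have hlq : 0 ≤ Real.log q := Real.log_nonneg hq1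
  -- the logarithmic derivative
  have hld : ∀ χ : DirichletCharacter ℂ q, logDeriv (DirichletCharacter.LFunction χ) (s : ℂ) =
      -LSeries (tw (fun n => Λ n) χ) (s : ℂ) := by
    intro χ
    have h1 := DirichletCharacter.LSeries_twist_vonMangoldt_eq χ hsc
    have h2 : LSeries (tw (fun n => Λ n) χ) (s : ℂ) =
        LSeries ((fun n : ℕ => (χ n : ℂ)) * (fun n : ℕ => ((Λ n : ℝ) : ℂ))) (s : ℂ) := rfl
    rw [h2, h1, logDeriv_apply, neg_div, neg_neg]
    have h3 : DirichletCharacter.LFunction χ =ᶠ[𝓝 (s : ℂ)] LSeries (fun n : ℕ => (χ n : ℂ)) := by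
      have : ∀ᶠ z : ℂ in 𝓝 (s : ℂ), 1 < z.re :=
        Complex.continuous_re.continuousAt.eventually_const_lt hsc
      filter_upwards [this] with z hz
      exact DirichletCharacter.LFunction_eq_LSeries χ hz
    rw [h3.deriv_eq, h3.self_of_nhds]
  have hsq : ∀ χ : DirichletCharacter ℂ q, logDeriv (DirichletCharacter.LFunction χ) (s : ℂ) ^ 2 =
      LSeries (tw LL χ) (s : ℂ) := by
    intro χ
    rw [hld, neg_sq, sq]
    have h1 : LSeriesSummable (tw (fun n => Λ n) χ) (s : ℂ) :=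
      DirichletCharacter.LSeriesSummable_twist_vonMangoldt χ hsc
    rw [← LSeries_convolution' h1 h1]
    refine LSeries_congr (fun {n} _ => ?_) _
    rw [LSeries.convolution_def]
    simp only
    unfold tw LL
    push_cast
    rw [Finset.mul_sum]
    refine Finset.sum_congr rfl fun p hp => ?_
    rw [Nat.mem_divisorsAntidiagonal] at hp
    rw [← hp.1, Nat.cast_mul, map_mul]
    ring
  constructor
  · have h1 : ∑ χ ∈ (Finset.univ : Finset (DirichletCharacter ℂ q)).erase 1,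
        logDeriv (DirichletCharacter.LFunction χ) (s : ℂ) =
        -∑ χ ∈ (Finset.univ : Finset (DirichletCharacter ℂ q)).erase 1,
          LSeries (tw (fun n => Λ n) χ) (s : ℂ) := by
      rw [← Finset.sum_neg_distrib]
      exact Finset.sum_congr rfl fun χ _ => hld χ
    rw [h1, norm_neg]
    have h2 := gen (q := q) le_rfl (a := fun n => Λ n) (fun n => vonMangoldt_nonneg)
      (fun n => by rw [pow_one]; exact vonMangoldt_le_log) hq hs hs2
    have h3 := (tk_sum le_rfl hs hs2).2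
    refine h2.trans ?_
    calc 2 * (1 + Real.log q) ^ 1 * ∑' k, tk 1 s k
        ≤ 2 * (1 + Real.log q) ^ 1 * (3 * (4 * (1 : ℕ)) ^ 1 / (s - 1) ^ (1 + 1)) :=
          mul_le_mul_of_nonneg_left h3 (by positivity)
      _ = 24 * (1 + Real.log q) / (s - 1) ^ 2 := by push_cast; ring
      _ ≤ 384 * (1 + Real.log q) / (s - 1) ^ 2 := by
          apply div_le_div_of_nonneg_right _ (by positivity)
          nlinarith
  · have h1 : ∑ χ ∈ (Finset.univ : Finset (DirichletCharacter ℂ q)).erase 1,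
        logDeriv (DirichletCharacter.LFunction χ) (s : ℂ) ^ 2 =
        ∑ χ ∈ (Finset.univ : Finset (DirichletCharacter ℂ q)).erase 1,
          LSeries (tw LL χ) (s : ℂ) := Finset.sum_congr rfl fun χ _ => hsq χ
    rw [h1]
    have h2 := gen (q := q) (j := 2) (by norm_num) LL_nonneg LL_le hq hs hs2
    have h3 := (tk_sum (j := 2) (by norm_num) hs hs2).2
    refine h2.trans ?_
    calc 2 * (1 + Real.log q) ^ 2 * ∑' k, tk 2 s k
        ≤ 2 * (1 + Real.log q) ^ 2 * (3 * (4 * (2 : ℕ)) ^ 2 / (s - 1) ^ (2 + 1)) :=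
          mul_le_mul_of_nonneg_left h3 (by positivity)
      _ = 384 * (1 + Real.log q) ^ 2 / (s - 1) ^ 3 := by push_cast; ring

end Pool.Agent.Q68.HV
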