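import Pool.Agent.Q253.HV.Stm
import Pool.Agent.Y275.GL.Had1

/-! Project HV: job ZG, entire functions with all zeros on the imaginary axis. -/

set_option autoImplicit false

namespace Pool.Agent.Q68.HV

open Complex Filter Topology Polynomial Metric Pool.Agent.Y275.GL Pool.Agent.Q253.HV

/-- polynomials with zeros on the imaginary axis which converge to the function -/
theorem had_im {Φ : ℂ → ℂ} (hΦ : Differentiable ℂ Φ)
    (hsym : ∀ z : ℂ, Φ (-((starRingEnd ℂ) z)) = (starRingEnd ℂ) (Φ z)) (hne : ∃ z, Φ z ≠ 0)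
    (hgr : ∃ K : ℝ, 0 < K ∧ ∀ z : ℂ, ‖Φ z‖ ≤ Real.exp (K * (1 + ‖z‖) ^ (3 / 2 : ℝ)))
    (hz : ∀ s : ℂ, Φ s = 0 → s.re = 0) :
    ∃ Q : ℕ → ℂ[X], (∀ N z, (Q N).IsRoot z → z.re = 0) ∧
      TendstoLocallyUniformly (fun (N : ℕ) (w : ℂ) => (Q N).eval w) Φ atTop := by
  obtain ⟨K, hK, hb⟩ := hgr
  obtain ⟨t0, ht0⟩ : ∃ t0 : ℝ, Φ (I * t0) ≠ 0 := by
    have han : AnalyticOnNhd ℂ Φ Set.univ := fun z _ => hΦ.analyticAt z
    rcases (han 0 (Set.mem_univ _)).eventually_eq_zero_or_eventually_ne_zero with h | h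
    · exfalso
      obtain ⟨z, hz'⟩ := hne
      exact hz' (han.eqOn_zero_of_preconnected_of_eventuallyEq_zero isPreconnected_univ
        (Set.mem_univ 0) h (Set.mem_univ z))
    · have h1 : Tendsto (fun t : ℝ => I * (t : ℂ)) (𝓝[≠] 0) (𝓝[≠] 0) := by
        rw [tendsto_nhdsWithin_iff]
        constructor
        · have h2 : Tendsto (fun t : ℝ => I * (t : ℂ)) (𝓝 0) (𝓝 (I * ((0 : ℝ) : ℂ))) :=
            (Continuous.tendsto (by fun_prop) 0)
          rw [Complex.ofReal_zero, mul_zero] at h2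
          exact h2.mono_left nhdsWithin_le_nhds
        · filter_upwards [self_mem_nhdsWithin] with t ht h3
          rcases mul_eq_zero.1 h3 with h4 | h4
          · exact Complex.I_ne_zero h4
          · exact ht (by exact_mod_cast h4)
      exact (h1.eventually h).exists
  obtain ⟨f, hf⟩ : ∃ f : ℂ → ℂ, f = fun x => Φ (I * x + I * t0) := ⟨_, rfl⟩
  have hfd : Differentiable ℂ f := by
    rw [hf]
    exact hΦ.comp (by fun_prop)
  have hf0 : f 0 ≠ 0 := by
    rw [hf]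
    simpa using ht0
  have hfs : ∀ x, f ((starRingEnd ℂ) x) = (starRingEnd ℂ) (f x) := by
    intro x
    rw [hf]
    simp only
    rw [← hsym]
    congr 1
    simp only [map_add, map_mul, Complex.conj_I, Complex.conj_ofReal]
    ring
  have hK' : 0 ≤ K * (1 + |t0|) ^ (3 / 2 : ℝ) := by positivity
  have hfb : ∀ w, ‖f w‖ ≤ Real.exp (K * (1 + |t0|) ^ (3 / 2 : ℝ) * (1 + ‖w‖) ^ (3 / 2 : ℝ)) := by
    intro w
    rw [hf]
    refine (hb _).trans (Real.exp_le_exp.2 ?_)
    rw [mul_assoc, ← Real.mul_rpow (by positivity) (by positivity)]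
    refine mul_le_mul_of_nonneg_left (Real.rpow_le_rpow (by positivity) ?_ (by norm_num)) hK.le
    have h1 : ‖I * w + I * (t0 : ℂ)‖ ≤ ‖w‖ + |t0| := by
      refine (norm_add_le _ _).trans (le_of_eq ?_)
      rw [norm_mul, norm_mul, Complex.norm_I, Complex.norm_real, Real.norm_eq_abs, one_mul, one_mul]
    have h2 : 0 ≤ |t0| * ‖w‖ := by positivity
    nlinarith
  obtain ⟨Q, hQ, hlim⟩ := had_real hfd hf0 hfs hK' hfb
  have hfΦ : ∀ z : ℂ, f (-I * z - t0) = Φ z := by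
    intro z
    have h1 : I * (-I * z - (t0 : ℂ)) + I * (t0 : ℂ) = z := by
      have := Complex.I_mul_I
      linear_combination (-z) * this
    rw [hf]
    simp only [h1]
  have hev : ∀ (N : ℕ) (z : ℂ), ((Q N).comp (Polynomial.C (-I) * Polynomial.X -
      Polynomial.C (t0 : ℂ))).eval z = (Q N).eval (-I * z - t0) := by
    intro N z
    rw [eval_comp, eval_sub, eval_mul, eval_C, eval_X, eval_C]
  refine ⟨fun N => (Q N).comp (Polynomial.C (-I) * Polynomial.X - Polynomial.C (t0 : ℂ)), ?_, ?_⟩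
  · intro N z hr
    rw [Polynomial.IsRoot.def, hev] at hr
    rcases hQ N _ hr with h | h
    · rw [hfΦ] at h
      exact hz z h
    · have h1 : (-I * z - (t0 : ℂ)).im = -z.re := by simp
      rw [h1] at h
      linarith
  · have h1 := hlim.comp (fun z : ℂ => -I * z - t0) (by fun_prop)
    have h2 : (f ∘ fun z : ℂ => -I * z - t0) = Φ := funext hfΦ
    rw [h2] at h1
    refine h1.congr fun N z => ?_
    exact (hev N z).symm

/-- the kernel -/
noncomputable def Pk (δ v : ℝ) : ℝ := δ / (δ ^ 2 + v ^ 2)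

lemma Pk_nonneg {δ : ℝ} (hδ : 0 < δ) (v : ℝ) : 0 ≤ Pk δ v := by unfold Pk; positivity

lemma Pk_harn {δ' δ : ℝ} (h' : 0 < δ') (h : δ' ≤ δ) (v : ℝ) : Pk δ' v ≤ δ / δ' * Pk δ v := by
  unfold Pk
  have h0 : 0 < δ := h'.trans_le h
  rw [div_mul_div_comm, div_le_div_iff₀ (by positivity) (by positivity)]
  have h1 : δ' ^ 2 * v ^ 2 ≤ δ ^ 2 * v ^ 2 :=
    mul_le_mul_of_nonneg_right (pow_le_pow_left₀ h'.le h 2) (sq_nonneg v)
  nlinarith

lemma Pk_sq {δ h : ℝ} (hδ : 0 < δ) (hh : 0 < h) (v : ℝ) :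
    (Pk δ v / δ - Pk ((1 + h) * δ) v / ((1 + h) * δ)) / (2 * h + h ^ 2) ≤ Pk δ v ^ 2 := by
  unfold Pk
  have h1 : 0 < δ ^ 2 + v ^ 2 := by positivity
  have h2 : 0 < ((1 + h) * δ) ^ 2 + v ^ 2 := by positivity
  have h3 : δ ^ 2 + v ^ 2 ≤ ((1 + h) * δ) ^ 2 + v ^ 2 := by
    have : δ ^ 2 ≤ ((1 + h) * δ) ^ 2 := pow_le_pow_left₀ hδ.le (by nlinarith) 2
    linarith
  have e1 : (δ / (δ ^ 2 + v ^ 2) / δ - (1 + h) * δ / (((1 + h) * δ) ^ 2 + v ^ 2) /
      ((1 + h) * δ)) / (2 * h + h ^ 2) = δ ^ 2 / ((δ ^ 2 + v ^ 2) * (((1 + h) * δ) ^ 2 + v ^ 2)) := by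
    have : 0 < 1 + h := by linarith
    have h4 : 2 * h + h ^ 2 ≠ 0 := by positivity
    have h5 : (2 : ℝ) + h ≠ 0 := by positivity
    field_simp
    ring
  rw [e1, div_pow, sq (δ ^ 2 + v ^ 2)]
  exact div_le_div_of_nonneg_left (sq_nonneg _) (by positivity)
    (mul_le_mul_of_nonneg_left h3 h1.le)

/-- the sum of the kernels at the roots -/
noncomputable def Sp (p : ℂ[X]) (δ y : ℝ) : ℝ := (p.roots.map (fun r => Pk δ (y - r.im))).sum

lemma Sp_nonneg (p : ℂ[X]) {δ : ℝ} (hδ : 0 < δ) (y : ℝ) : 0 ≤ Sp p δ y := by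
  unfold Sp
  refine Multiset.sum_nonneg ?_
  intro x hx
  rw [Multiset.mem_map] at hx
  obtain ⟨r, -, rfl⟩ := hx
  exact Pk_nonneg hδ _

lemma Sp_harn (p : ℂ[X]) {δ' δ : ℝ} (h' : 0 < δ') (h : δ' ≤ δ) (y : ℝ) :
    Sp p δ' y ≤ δ / δ' * Sp p δ y := by
  unfold Sp
  rw [← Multiset.sum_map_mul_left]
  exact Multiset.sum_map_le_sum_map _ _ fun r _ => Pk_harn h' h _

lemma sum_sq_le (s : Multiset ℂ) (f : ℂ → ℝ) (hf : ∀ r, 0 ≤ f r) :
    (s.map (fun r => f r ^ 2)).sum ≤ (s.map f).sum ^ 2 := by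
  induction s using Multiset.induction with
  | empty => simp
  | cons a s ih =>
    rw [Multiset.map_cons, Multiset.sum_cons, Multiset.map_cons, Multiset.sum_cons]
    have h1 : 0 ≤ (s.map f).sum := Multiset.sum_nonneg (by
      intro x hx
      rw [Multiset.mem_map] at hx
      obtain ⟨r, -, rfl⟩ := hx
      exact hf r)
    nlinarith [mul_nonneg (hf a) h1]

lemma Sp_sq (p : ℂ[X]) {δ h : ℝ} (hδ : 0 < δ) (hh : 0 < h) (y : ℝ) :
    (Sp p δ y / δ - Sp p ((1 + h) * δ) y / ((1 + h) * δ)) / (2 * h + h ^ 2) ≤ Sp p δ y ^ 2 := by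
  refine le_trans ?_ (sum_sq_le p.roots (fun r => Pk δ (y - r.im)) fun r => Pk_nonneg hδ _)
  have e1 : (Sp p δ y / δ - Sp p ((1 + h) * δ) y / ((1 + h) * δ)) / (2 * h + h ^ 2) =
      (p.roots.map (fun r => (Pk δ (y - r.im) / δ - Pk ((1 + h) * δ) (y - r.im) /
        ((1 + h) * δ)) / (2 * h + h ^ 2))).sum := by
    unfold Sp
    rw [Multiset.sum_map_div, Multiset.sum_map_sub, Multiset.sum_map_div, Multiset.sum_map_div]
  rw [e1]
  exact Multiset.sum_map_le_sum_map _ _ fun r _ => Pk_sq hδ hh _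

lemma pt_re (σ y : ℝ) : (pt σ y).re = σ := by simp [pt]
lemma pt_im (σ y : ℝ) : (pt σ y).im = y := by simp [pt]

/-- the real part of the logarithmic derivative of a polynomial -/
lemma re_poly (p : ℂ[X]) (hp : ∀ z, p.IsRoot z → z.re = 0) {δ : ℝ} (hδ : 0 < δ) (y : ℝ) :
    (logDeriv (fun z => p.eval z) (pt δ y)).re = Sp p δ y := by
  have hpz : p.eval (pt δ y) ≠ 0 := fun h => by
    have := hp _ h
    rw [pt_re] at this
    linarith
  rw [logDeriv_apply, Polynomial.deriv, (IsAlgClosed.splits p).eval_derivative_div_eval_of_ne_zero hpz]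
  have h3 : ((Multiset.map (fun r => 1 / (pt δ y - r)) p.roots).sum).re =
      (Multiset.map (fun r => (1 / (pt δ y - r)).re) p.roots).sum := by
    have := map_multiset_sum Complex.reLm (Multiset.map (fun r => 1 / (pt δ y - r)) p.roots)
    rw [Multiset.map_map] at this
    exact this
  rw [h3]
  unfold Sp
  congr 1
  refine Multiset.map_congr rfl ?_
  intro r hr
  have h4 : p.IsRoot r := (Polynomial.mem_roots'.mp hr).2
  have h5 := hp r h4
  rw [one_div, Complex.inv_re, Complex.normSq_apply, Complex.sub_re, Complex.sub_im, h5, pt_re,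
    pt_im, sub_zero]
  unfold Pk
  rw [sq, sq]

theorem t_ZG : S_ZG := by
  intro X hX hsym hne hgr hz
  obtain ⟨Q, hQ, hlim⟩ := had_im hX hsym hne hgr hz
  have hX0 : ∀ δ y : ℝ, 0 < δ → X (pt δ y) ≠ 0 := fun δ y hδ h => by
    have := hz _ h
    rw [pt_re] at this
    linarith
  have lim : ∀ δ y : ℝ, 0 < δ → Tendsto (fun n => Sp (Q n) δ y) atTop
      (𝓝 (logDeriv X (pt δ y)).re) := by
    intro δ y hδ
    have h1 := Complex.logDeriv_tendsto isOpen_univ (Set.mem_univ (pt δ y))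
      (hlim.tendstoLocallyUniformlyOn (s := Set.univ))
      (Eventually.of_forall fun n => (Q n).differentiable.differentiableOn) (hX0 δ y hδ)
    have h2 : Tendsto (fun n => (logDeriv (fun z => (Q n).eval z) (pt δ y)).re) atTop
        (𝓝 (logDeriv X (pt δ y)).re) := (Complex.continuous_re.tendsto _).comp h1
    refine h2.congr fun n => re_poly (Q n) (hQ n) hδ y
  refine ⟨?_, ?_, ?_, ?_⟩
  · intro δ hδ
    have h1 : Continuous (fun y : ℝ => pt δ y) := by
      unfold pt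
      fun_prop
    have h2 : Continuous (deriv X) := (hX.contDiff (n := 1)).continuous_deriv le_rfl
    have h3 : Continuous (fun y : ℝ => deriv X (pt δ y) / X (pt δ y)) :=
      (h2.comp h1).div (hX.continuous.comp h1) fun y => hX0 δ y hδ
    exact Complex.continuous_re.comp h3
  · intro δ y hδ
    exact ge_of_tendsto' (lim δ y hδ) fun n => Sp_nonneg _ hδ _
  · intro δ' δ y h' h
    exact le_of_tendsto_of_tendsto' (lim δ' y h') ((lim δ y (h'.trans_le h)).const_mul _)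
      fun n => Sp_harn _ h' h _
  · intro δ h y hδ hh
    have hδ2 : 0 < (1 + h) * δ := by positivity
    exact le_of_tendsto_of_tendsto'
      ((((lim δ y hδ).div_const δ).sub ((lim _ y hδ2).div_const ((1 + h) * δ))).div_const _)
      ((lim δ y hδ).pow 2) fun n => Sp_sq _ hδ hh _

end Pool.Agent.Q68.HV
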